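import Pool.Agent.Lib.MP_005409_ag.DG.Main

set_option autoImplicit false

/-!
# Degrees of rational and unirational parametrizations of smooth hypersurfaces

Let `X = {F = 0}` be a smooth hypersurface of degree `δ ≥ 2` in the complex projective space of dimension `n + 1`,
`n ≥ 1`, and let `f_0, …, f_{n+1}` be forms of degree `d` in `v_0, …, v_N` which define a dominant rational map from
the projective space of dimension `N` to `X`: the polynomials `G` with `G(f) = 0` are exactly the multiples of `F`.  Then
`δ (δ - 1)^n ≤ d^(n+1)`, and so `d ≥ δ`.  In particular a parametrization (birational or only dominant) of a smooth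
quartic has degree at least `4`, in every dimension.  The bound `d ≥ δ` is attained by quadrics (`d = 2`) and
by cubic surfaces (`d = 3`).

Idea of the proof.  Let `K = ℂ(v)`.  The vectors `y = c ∇F(f(v))` satisfy the equations `∑ y_l ∂_j f_l = 0` (chain rule).
By the Jacobian criterion `n + 1` of these equations are linearly independent over `K`, and so they have no other solution
over `K`.  They have total degree `d` in `(y, v)`; each of them is regular modulo the prime ideal of
the previous ones, so the closure `W` of the set of all `(c ∇F(f(v)), v)`, which has dimension `N + 2`, has degree at most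
`d^(n+1)`.  On the other hand `W` maps onto the affine cone over the dual variety of `X`, which has degree
`δ (δ - 1)^n`, and degrees do not grow under linear projections.  In Lean both bounds are bounds for the Hilbert function
of the ideal of `W`; for the lower bound one lifts the forms `Q(f(v))`, `deg Q = (δ - 1)(a + c)`, to polynomials of degree
`a + e` in `(y, v)` by the Nullstellensatz for the partial derivatives of `F`.
-/

namespace Pool.Agent.Results.MP_005409_ag.DegreeOfParametrizations

open MvPolynomial

theorem result (n N δ d : ℕ) (hn : 1 ≤ n) (hδ : 2 ≤ δ)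
    -- a form `F` of degree `δ` in `n + 2` variables whose partial derivatives vanish together only at `0`
    (F : MvPolynomial (Fin (n + 2)) ℂ) (hF : F.IsHomogeneous δ)
    (hs : ∀ x : Fin (n + 2) → ℂ, (∀ i, eval x (pderiv i F) = 0) → x = 0)
    -- forms `f_l` of degree `d` in `N + 1` variables
    (f : Fin (n + 2) → MvPolynomial (Fin (N + 1)) ℂ) (hf : ∀ l, (f l).IsHomogeneous d)
    -- the rational map defined by the `f_l` maps to `F = 0` and is dominant
    (h0 : aeval f F = 0) (hdom : ∀ G : MvPolynomial (Fin (n + 2)) ℂ, aeval f G = 0 → F ∣ G) :
    δ * (δ - 1) ^ n ≤ d ^ (n + 1) ∧ δ ≤ d := by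
  have h := Pool.Agent.Lib.MP_005409_ag.DG.main hn hδ F hF hs f hf h0 hdom
  refine ⟨h, ?_⟩
  by_contra hlt
  have h1 : d ≤ δ - 1 := by omega
  have h2 : d ^ (n + 1) ≤ (δ - 1) ^ (n + 1) := Nat.pow_le_pow_left h1 _
  have h3 : 0 < (δ - 1) ^ n := Nat.pow_pos (by omega)
  have h4 : (δ - 1) ^ (n + 1) < δ * (δ - 1) ^ n := by
    rw [pow_succ, mul_comm]
    exact Nat.mul_lt_mul_of_pos_right (by omega) h3
  omega

end Pool.Agent.Results.MP_005409_ag.DegreeOfParametrizations
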